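import Mathlib
import Pool.Agent.TH456.HN.Dens

set_option autoImplicit false

namespace Pool.Agent.Results.MP_5fa244_nt.AlmostAllExponents

open Filter Topology Finset

/-- Lower bounds for `|a - e^b|`, uniform in the integer `a`, for almost all exponents `b`:
(1) if `n` is large and `8 ≤ m ≤ K`, `K log K ≤ log n`, then for all but at most `m` of the integers `b` in
`[n, n + K]` one has `|a - e^b| > exp(-50 n / m)` for every integer `a`;
(2) for every `ε > 0` there is `C` such that, for all large `X`, for all but at most `ε X` of the integers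
`b ≤ X` one has `|a - e^b| > exp(-C b log log b / log b)` for every integer `a`;
(3) for every `η > 0`, for all `b` outside a set of natural density zero one has
`|a - e^b| > exp(-b / (log b)^{1-η})` for every integer `a`. -/
theorem result :
    (∃ n₀ : ℕ, ∀ n : ℕ, n₀ ≤ n → ∀ m K : ℕ, 8 ≤ m → m ≤ K → (K : ℝ) * Real.log K ≤ Real.log n →
      Nat.card {b : ℕ | (n ≤ b ∧ b ≤ n + K) ∧
        ∃ a : ℤ, |(a : ℝ) - Real.exp b| ≤ Real.exp (-(50 * n / m))} ≤ m) ∧
    (∀ ε : ℝ, 0 < ε → ∃ C : ℝ, 0 < C ∧ ∃ X₀ : ℕ, ∀ X : ℕ, X₀ ≤ X →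
      (Nat.card {b : ℕ | (1 ≤ b ∧ b ≤ X) ∧ ∃ a : ℤ, |(a : ℝ) - Real.exp b| ≤
        Real.exp (-(C * b * Real.log (Real.log b) / Real.log b))} : ℝ) ≤ ε * X) ∧
    (∀ η : ℝ, 0 < η → Tendsto (fun X : ℕ =>
      (Nat.card {b : ℕ | (1 ≤ b ∧ b ≤ X) ∧ ∃ a : ℤ, |(a : ℝ) - Real.exp b| ≤
        Real.exp (-((b : ℝ) / Real.log b ^ (1 - η)))} : ℝ) / X) atTop (𝓝 0)) := by
  classical
  have key : ∀ (x t : ℝ), (∃ a : ℤ, |(a : ℝ) - x| ≤ t) ↔ TH456.TI.dz (1 * x) ≤ t := by
    intro x t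
    rw [one_mul, TH456.TI.dz]
    constructor
    · rintro ⟨a, ha⟩
      rw [abs_sub_comm] at ha
      exact (round_le x a).trans ha
    · intro h
      exact ⟨round x, by rw [abs_sub_comm]; exact h⟩
  have hset : ∀ (u v : ℕ) (T : ℕ → ℝ), Nat.card {b : ℕ | (u ≤ b ∧ b ≤ v) ∧
      ∃ a : ℤ, |(a : ℝ) - Real.exp b| ≤ T b} =
        ((Icc u v).filter (fun b : ℕ => TH456.TI.dz (1 * Real.exp b) ≤ T b)).card := by
    intro u v T
    have h : {b : ℕ | (u ≤ b ∧ b ≤ v) ∧ ∃ a : ℤ, |(a : ℝ) - Real.exp b| ≤ T b} =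
        (((Icc u v).filter (fun b : ℕ => TH456.TI.dz (1 * Real.exp b) ≤ T b) : Finset ℕ) : Set ℕ) := by
      ext b
      rw [Finset.mem_coe, mem_filter, mem_Icc, ← key]
      rfl
    rw [h, Nat.card_coe_set_eq, Set.ncard_coe_finset]
  refine ⟨?_, ?_, ?_⟩
  · obtain ⟨n₀, h⟩ := TH456.TI.window3 1 one_ne_zero
    refine ⟨n₀, fun n hn m K hm hmK hK => ?_⟩
    rw [hset n (n + K) (fun _ => Real.exp (-(50 * n / m)))]
    exact h n hn m K hm hmK hK
  · intro ε hε
    obtain ⟨C, hC, X₀, h⟩ := TH456.TI.density3 1 one_ne_zero ε hε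
    refine ⟨C, hC, X₀, fun X hX => ?_⟩
    rw [hset 1 X (fun b => Real.exp (-(C * b * Real.log (Real.log b) / Real.log b)))]
    exact h X hX
  · intro η hη
    refine (TH456.TI.zero_density3 1 one_ne_zero η hη).congr fun X => ?_
    rw [hset 1 X (fun b => Real.exp (-((b : ℝ) / Real.log b ^ (1 - η))))]

end Pool.Agent.Results.MP_5fa244_nt.AlmostAllExponents
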